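import Pool.Agent.L7h12.SV.Stm

/-!
# Project SV (MP_b7f146_ag): parts LOC and RGP
-/

set_option autoImplicit false

noncomputable section

namespace Pool.Agent.L7h56.SV

open Polynomial Set Pool.Agent.L7h12.SV

theorem regNear (f : ℝ[X]) (y : ℝ) (h : Rg f y) : ∃ ρ : ℝ, 0 < ρ ∧ ∀ s, |s - y| < ρ → Rg f s := by
  have hc : Continuous (fun s => f.derivative.eval s) := f.derivative.continuous
  have ho : IsOpen {s | f.derivative.eval s ≠ 0} := isOpen_ne_fun hc continuous_const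
  obtain ⟨ρ, hρ, hb⟩ := Metric.isOpen_iff.1 ho y h
  exact ⟨ρ, hρ, fun s hs => hb (by rwa [Metric.mem_ball, Real.dist_eq])⟩

theorem straddle (f : ℝ[X]) (y ε : ℝ) (h : 0 < f.derivative.eval y) (hε : 0 < ε) :
    ∃ a b : ℝ, y - ε < a ∧ a < y ∧ y < b ∧ b < y + ε ∧ f.eval a < f.eval y ∧ f.eval y < f.eval b := by
  have hc : Continuous (fun s => f.derivative.eval s) := f.derivative.continuous
  have ho : IsOpen {s | 0 < f.derivative.eval s} := isOpen_lt continuous_const hc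
  obtain ⟨ρ, hρ, hb⟩ := Metric.isOpen_iff.1 ho y h
  have hpos : ∀ s, |s - y| < ρ → 0 < f.derivative.eval s :=
    fun s hs => hb (by rwa [Metric.mem_ball, Real.dist_eq])
  obtain ⟨δ, hδ, hδρ, hδε⟩ : ∃ δ : ℝ, 0 < δ ∧ δ < ρ ∧ δ < ε := by
    refine ⟨min ρ ε / 2, by positivity, ?_, ?_⟩
    · have := min_le_left ρ ε; have := lt_min hρ hε; linarith
    · have := min_le_right ρ ε; have := lt_min hρ hε; linarith
  have hm : StrictMonoOn (fun s => f.eval s) (Icc (y - δ) (y + δ)) := by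
    apply strictMonoOn_of_deriv_pos (convex_Icc _ _) f.continuous.continuousOn
    intro s hs
    rw [interior_Icc] at hs
    rw [Polynomial.deriv]
    apply hpos
    rw [abs_lt]
    exact ⟨by linarith [hs.1], by linarith [hs.2]⟩
  refine ⟨y - δ, y + δ, by linarith, by linarith, by linarith, by linarith, ?_, ?_⟩
  · exact hm ⟨le_rfl, by linarith⟩ ⟨by linarith, by linarith⟩ (by linarith)
  · exact hm ⟨by linarith, by linarith⟩ ⟨by linarith, le_rfl⟩ (by linarith)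

theorem locPos (p f : ℝ[X]) (K : Set (ℝ × ℝ)) (hK : Piece p f K) (r y : ℝ) (hy : (r, y) ∈ K)
    (hf : 0 < f.derivative.eval y) (ε : ℝ) (hε : 0 < ε) :
    ∃ δ : ℝ, 0 < δ ∧ ∀ x, |x - r| < δ → ∃ y', |y' - y| < ε ∧ (x, y') ∈ K := by
  have hnot : (r, y) ∈ (Z p f \ K)ᶜ := fun h => h.2 hy
  obtain ⟨η, hη, hball⟩ := Metric.isOpen_iff.1 hK.rest.isOpen_compl (r, y) hnot
  have hZ : p.eval r = f.eval y := hK.sub hy
  obtain ⟨a, b, ha, hay, hyb, hb, hfa, hfb⟩ := straddle f y (min ε η) hf (lt_min hε hη)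
  have ho : IsOpen {x | f.eval a < p.eval x ∧ p.eval x < f.eval b} := by
    rw [setOf_and]
    exact (isOpen_lt continuous_const p.continuous).inter (isOpen_lt p.continuous continuous_const)
  obtain ⟨δ, hδ, hd⟩ := Metric.isOpen_iff.1 ho r (show _ ∧ _ from ⟨by rw [hZ]; exact hfa, by rw [hZ]; exact hfb⟩)
  refine ⟨min δ η, lt_min hδ hη, ?_⟩
  intro x hx
  have hx1 : |x - r| < δ := lt_of_lt_of_le hx (min_le_left _ _)
  have hx2 : |x - r| < η := lt_of_lt_of_le hx (min_le_right _ _)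
  have hpx : f.eval a < p.eval x ∧ p.eval x < f.eval b :=
    hd (by rwa [Metric.mem_ball, Real.dist_eq])
  have hab : a ≤ b := by linarith
  obtain ⟨y', hy', hfy'⟩ := intermediate_value_Ioo hab (f.continuous.continuousOn (s := Icc a b))
    (show p.eval x ∈ Ioo (f.eval a) (f.eval b) from ⟨hpx.1, hpx.2⟩)
  have he : |y' - y| < min ε η := by
    rw [abs_lt]
    exact ⟨by linarith [hy'.1], by linarith [hy'.2]⟩
  refine ⟨y', lt_of_lt_of_le he (min_le_left _ _), ?_⟩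
  by_contra hn
  have hmem : (x, y') ∈ Z p f \ K := ⟨hfy'.symm, hn⟩
  refine hball ?_ hmem
  rw [Metric.mem_ball, Prod.dist_eq, Real.dist_eq, Real.dist_eq]
  exact max_lt hx2 (lt_of_lt_of_le he (min_le_right _ _))

theorem Z_neg (p f : ℝ[X]) : Z (-p) (-f) = Z p f := by
  ext w
  simp [Z]

theorem piece_neg (p f : ℝ[X]) (K : Set (ℝ × ℝ)) (hK : Piece p f K) : Piece (-p) (-f) K := by
  refine ⟨?_, hK.closed, ?_⟩
  · rw [Z_neg]; exact hK.sub
  · rw [Z_neg]; exact hK.rest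

/-- Part LOC. -/
theorem loc : S_LOC := by
  intro p f K hK r y hy hf ε hε
  rcases lt_or_gt_of_ne hf with h | h
  · exact locPos (-p) (-f) K (piece_neg p f K hK) r y hy (by simpa using h) ε hε
  · exact locPos p f K hK r y hy h ε hε

theorem exists_reg (p : ℝ[X]) (hp : p.derivative ≠ 0) (x δ : ℝ) (hδ : 0 < δ) :
    ∃ x', |x' - x| < δ ∧ Rg p x' := by
  have hinf : (Ioo (x - δ) (x + δ)).Infinite := Ioo_infinite (by linarith)
  obtain ⟨x', hx', hr⟩ := hinf.exists_notMem_finset p.derivative.roots.toFinset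
  refine ⟨x', ?_, ?_⟩
  · rw [abs_lt]
    exact ⟨by linarith [hx'.1], by linarith [hx'.2]⟩
  · intro h0
    apply hr
    rw [Multiset.mem_toFinset, mem_roots hp]
    exact h0

theorem rgpFst (p f : ℝ[X]) (K : Set (ℝ × ℝ)) (hp : p.derivative ≠ 0) (hK : Piece p f K)
    (x y : ℝ) (hxy : (x, y) ∈ K) (hf : Rg f y) : ∃ w ∈ K, Rg p w.1 ∧ Rg f w.2 := by
  obtain ⟨ε, hε, hreg⟩ := regNear f y hf
  obtain ⟨δ, hδ, hloc⟩ := loc p f K hK x y hxy hf ε hε
  obtain ⟨x', hx', hrx⟩ := exists_reg p hp x δ hδ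
  obtain ⟨y', hy', hk⟩ := hloc x' hx'
  exact ⟨(x', y'), hk, hrx, hreg y' hy'⟩

theorem piece_swap (p f : ℝ[X]) (K : Set (ℝ × ℝ)) (hK : Piece p f K) :
    Piece f p (Prod.swap '' K) := by
  have hZ : Z f p = Prod.swap '' Z p f := by
    ext w
    rw [Set.image_swap_eq_preimage_swap]
    simp only [Z, mem_setOf_eq, mem_preimage, Prod.fst_swap, Prod.snd_swap]
    exact eq_comm
  refine ⟨?_, ?_, ?_⟩
  · rw [hZ]; exact image_mono hK.sub
  · rw [Set.image_swap_eq_preimage_swap]; exact hK.closed.preimage continuous_swap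
  · rw [hZ, ← image_diff Prod.swap_injective, Set.image_swap_eq_preimage_swap]
    exact hK.rest.preimage continuous_swap

/-- Part RGP. -/
theorem rgp : S_RGP := by
  rintro p f K hp hf hNS hK ⟨⟨x, y⟩, hxy⟩
  rcases hNS x y (hK.sub hxy) with h | h
  · obtain ⟨w, hw, h1, h2⟩ := rgpFst f p (Prod.swap '' K) hf (piece_swap p f K hK) y x
      ⟨(x, y), hxy, rfl⟩ h
    obtain ⟨v, hv, rfl⟩ := hw
    exact ⟨v, hv, h2, h1⟩
  · exact rgpFst p f K hp hK x y hxy h

end Pool.Agent.L7h56.SV
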